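import Mathlib
import Pool.Agent.H541R3.ARS.Comp

/-!
# L-functions of potentially modular elliptic curves, alternating composition factors

`Pool.Agent.H541R3.ARS.SolData G s₀` is a family of functions with the formal properties, near a
point `s₀`, of the L-functions attached to an elliptic curve `E/K` and a finite Galois extension
`L/K` with group `G` over which `E` is modular: `L χ` stands for `L(E/K ⊗ χ, s)`, `χ` an irreducible
character of `G`, and `Lin H ψ` for `L(E/L^H ⊗ ψ, s)`, `ψ` a linear character of the subgroup `H`.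
The `L χ` are meromorphic and not identically zero near `s₀`; `Lin H ψ` is the product of the
`L χ ^ ⟨χ|_H, ψ⟩`; and `Lin H ψ` has no pole at `s₀` if `H` is SOLVABLE. In particular `Lin ⊥ 1`
stands for `L(E/L, s)` and `Lin ⊤ 1` for `L(E/K, s)`.

`AltFactor r T`: `T` is an alternating group `A_n` with `r < (2^k - 1) ⌊n / 2^k⌋` for some `k ≥ 2`.

`AltClass r` is the smallest class of groups which contains the trivial groups and which contains
`G` as soon as it contains `G ⧸ N` for a normal subgroup `N` of `G` which is solvable or a finite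
direct product of groups `T` with `AltFactor r T`. The finite groups in `AltClass r` are the finite
groups all of whose nonabelian composition factors are such `A_n`.
-/

set_option autoImplicit false

open Pool.Agent.H541R3.ART Pool.Agent.H541R3.ARS Equiv

/-- Let `L(E/L, s)` have order `r` at `s₀`.
(1) Let `G` be a finite group in `AltClass r`. Then `L(E/K ⊗ ψ, s)` is holomorphic at `s₀` for every
linear character `ψ` of `G`.
(2) Let `r ≥ 3` and let `1 = N 0, N 1, …, N l` be normal subgroups of the finite group `G` such that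
every `N (j + 1) / N j` is a direct product of groups `T` with `AltFactor r T`. Then
`L(E/K ⊗ χ, s)` has neither zero nor pole at `s₀` for every irreducible character `χ` of `G` which
is nontrivial on `N l`.
(3) Let `A_n ≤ G ≤ S_n`, `n ≥ 5`, and `r < (2 ^ k - 1) ⌊n / 2 ^ k⌋` for some `k ≥ 2`. Then
`L(E/K ⊗ χ, s)` is holomorphic at `s₀` for every irreducible character `χ` of `G`, and has neither
zero nor pole at `s₀` unless `χ` is trivial on `A_n`. -/
theorem Pool.Agent.Results.MP_bf61d2_nt.CompositionFactors.result :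
    (∀ (G : Type) [hG : Group G] [Finite G] (s₀ : ℂ) (A : SolData G s₀) (r : ℕ),
      meromorphicOrderAt (A.Lin ⊥ 1) s₀ = (r : WithTop ℤ) → AltClass r G hG →
      ∀ ψ : G →* ℂˣ,
        0 ≤ meromorphicOrderAt (A.Lin ⊤ (ψ.comp (⊤ : Subgroup G).subtype)) s₀) ∧
    (∀ (G : Type) [Group G] [Finite G] (s₀ : ℂ) (A : SolData G s₀) (r : ℕ),
      meromorphicOrderAt (A.Lin ⊥ 1) s₀ = (r : WithTop ℤ) → 3 ≤ r →
      ∀ (l : ℕ) (N : ℕ → Subgroup G) (_ : N 0 = ⊥) (_ : ∀ j, (N j).Normal),
      (∀ j < l, ∃ (m : ℕ) (T : Fin m → Type) (_ : ∀ i, Group (T i)),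
        (∀ i, AltFactor r (T i)) ∧
        Nonempty ((N (j + 1)).map (QuotientGroup.mk' (N j)) ≃* (∀ i : Fin m, T i))) →
      ∀ χ ∈ Irr G, (∃ x ∈ N l, χ x ≠ χ 1) → meromorphicOrderAt (A.L χ) s₀ = 0) ∧
    (∀ n k : ℕ, 5 ≤ n → 2 ≤ k → ∀ G : Subgroup (Perm (Fin n)), alternatingGroup (Fin n) ≤ G →
      ∀ (s₀ : ℂ) (A : SolData G s₀) (r : ℕ),
      meromorphicOrderAt (A.Lin ⊥ 1) s₀ = (r : WithTop ℤ) → r < (2 ^ k - 1) * (n / 2 ^ k) →
      ∀ χ ∈ Irr G, 0 ≤ meromorphicOrderAt (A.L χ) s₀ ∧
        ((∃ g : G, (g : Perm (Fin n)) ∈ alternatingGroup (Fin n) ∧ χ g ≠ χ 1) →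
          meromorphicOrderAt (A.L χ) s₀ = 0)) :=
  ⟨fun _ _ _ _ A _ hr h ψ => hw_class A hr h ψ,
    fun _ _ _ _ A _ hr hr3 l N h0 hnorm hlayer χ hχ ⟨x, hx, hx1⟩ =>
      hw_chain A hr hr3 l N h0 hnorm hlayer χ hχ x hx hx1,
    fun _ _ hn hk G hG _ A _ hr hlt χ hχ => hw_sym hn hk G hG A hr hlt χ hχ⟩
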