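import Mathlib
import Pool.Agent.H541R3.HBS.Main

/-!
# L-functions of potentially modular elliptic curves, linear groups in characteristic two

`Pool.Agent.H541R3.ARS.SolData G s₀` is a family of functions with the formal properties, near a
point `s₀`, of the L-functions attached to an elliptic curve `E/K` and a finite Galois extension
`L/K` with group `G` over which `E` is modular: `L χ` stands for `L(E/K ⊗ χ, s)`, `χ` an irreducible
character of `G`, and `Lin H ψ` for `L(E/L^H ⊗ ψ, s)`, `ψ` a linear character of the subgroup `H`.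
The `L χ` are meromorphic and not identically zero near `s₀`; `Lin H ψ` is the product of the
`L χ ^ ⟨χ|_H, ψ⟩`; and `Lin H ψ` has no pole at `s₀` if `H` is SOLVABLE. In particular `Lin ⊥ 1`
stands for `L(E/L, s)` and `Lin ⊤ 1` for `L(E/K, s)`.

`Pool.Agent.H541R3.HBS.Factor r T`: the group `T` is isomorphic to `SL_{a+b}(F_q)`, where `q` is a
power of two, `a, b ≥ 1` are coprime, `q = 2` or `a + b = 2`, and
`r (q - 1) < (q^a - 1) (q^b - 1)`; or `T` is isomorphic to `A_n`, `n ≥ 5`, with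
`r < (2^k - 1) ⌊n / 2^k⌋` for some `k ≥ 2`.
-/

set_option autoImplicit false

open Pool.Agent.H541R3.ART Pool.Agent.H541R3.ARS Pool.Agent.H541R3.HBS

/-- Let `L(E/L, s)` have order `r` at `s₀`, and let `S` be a solvable normal subgroup of the finite
group `G` such that `G ⧸ S` is a direct product of groups `T i` with `Factor r (T i)`. Then
(1) `L(E/K ⊗ ψ, s)` is holomorphic at `s₀` for every linear character `ψ` of `G`;
(2) `L(E/K ⊗ χ, s)` is holomorphic at `s₀` for every irreducible character `χ` of `G` which is the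
product of an irreducible character of `G ⧸ S` and a linear character `ψ` of `G`;
(3) `L(E/K ⊗ χ, s)` has neither zero nor pole at `s₀` for every nontrivial irreducible character
`χ` of `G ⧸ S`. -/
theorem Pool.Agent.Results.MP_bf61d2_nt.LinearQuotients.result (G : Type) [Group G] [Finite G]
    (s₀ : ℂ) (A : SolData G s₀) (r : ℕ)
    (hr : meromorphicOrderAt (A.Lin ⊥ 1) s₀ = (r : WithTop ℤ)) (S : Subgroup G) [S.Normal]
    (hS : Group.IsSolvable S) (m : ℕ) (T : Fin m → Type) [∀ i, Group (T i)]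
    (hT : ∀ i, Factor r (T i)) (e : G ⧸ S ≃* (∀ i, T i)) :
    (∀ ψ : G →* ℂˣ, 0 ≤ meromorphicOrderAt (A.Lin ⊤ (ψ.comp (⊤ : Subgroup G).subtype)) s₀) ∧
    (∀ χ ∈ Irr G, ∀ ψ : G →* ℂˣ, (∀ s ∈ S, ∀ x, χ (s * x) = ((ψ s : ℂˣ) : ℂ) * χ x) →
      0 ≤ meromorphicOrderAt (A.L χ) s₀) ∧
    (∀ χ ∈ Irr G, (∀ s ∈ S, ∀ x, χ (s * x) = χ x) → (∃ x, χ x ≠ χ 1) →
      meromorphicOrderAt (A.L χ) s₀ = 0) :=
  ⟨lin_nonneg A hr S hS (rig_quot S T hT e),
    fun _ hχ ψ h => irr_nonneg A hr S hS (rig_quot S T hT e) hχ ψ h,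
    fun _ hχ h ⟨_, hx⟩ => irr_zero A hr S hS (rig_quot S T hT e) hχ h hx⟩
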