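import Mathlib
import Pool.Agent.H541R3.ARS.Data

/-!
# L-functions of potentially modular elliptic curves at points of order at most two

`Pool.Agent.H541R3.ARS.SolData G s₀` is a family of functions with the formal properties, near a
point `s₀`, of the L-functions attached to an elliptic curve `E/K` and a finite Galois extension
`L/K` with group `G` over which `E` is modular: `L χ` stands for `L(E/K ⊗ χ, s)`, `χ` an irreducible
character of `G`, and `Lin H ψ` for `L(E/L^H ⊗ ψ, s)`, `ψ` a linear character of the subgroup `H`.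
The `L χ` are meromorphic and not identically zero near `s₀`; `Lin H ψ` is the product of the
`L χ ^ ⟨χ|_H, ψ⟩`; and `Lin H ψ` has no pole at `s₀` if `H` is SOLVABLE. In particular `Lin ⊥ 1`
stands for `L(E/L, s)` and `Lin ⊤ 1` for `L(E/K, s)`.
-/

set_option autoImplicit false

open Pool.Agent.H541R3.ART Pool.Agent.H541R3.ARS

/-- Let `G` be any finite group and let `L(E/L, s)` have order `r ≤ 2` at `s₀`. Then
`L(E/L^H ⊗ ψ, s)` is holomorphic at `s₀` for EVERY subgroup `H` of `G`, solvable or not, and every
linear character `ψ` of `H`. -/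
theorem Pool.Agent.Results.MP_bf61d2_nt.OrderTwo.result (G : Type) [Group G] [Finite G] (s₀ : ℂ)
    (A : SolData G s₀) (r : ℕ) (hr : meromorphicOrderAt (A.Lin ⊥ 1) s₀ = (r : WithTop ℤ))
    (h2 : r ≤ 2) (H : Subgroup G) (ψ : H →* ℂˣ) :
    0 ≤ meromorphicOrderAt (A.Lin H ψ) s₀ :=
  hw_two A hr h2 H ψ
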